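import Pool.Agent.H.MP_148663_lc.Defs
import Pool.Agent.Lib.lead.CXNum

namespace Pool.Agent.H.MP_148663_lc

open Pool.Agent.Lib.CX Finset

variable {n : ℕ}

noncomputable def L (c : Fin n → ℤ) : (Fin n → ℝ) →ₗ[ℝ] ℝ := ∑ j, (c j : ℝ) • LinearMap.proj j

theorem L_apply (c : Fin n → ℤ) (x) : L c x = ∑ j, c j * x j := by simp [L]

theorem L_single (c : Fin n → ℤ) (i t) : L c (Pi.single i t) = c i * t := by
  simp [L_apply, Pi.single_apply]

theorem ex_ne {c : Fin n → ℤ} (h : univ.gcd c = 1) : ∃ j, c j ≠ 0 := by
  by_contra! e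
  rw [Finset.gcd_eq_zero_iff.2 fun j _ => e j] at h
  exact zero_ne_one h

theorem rk {c : Fin n → ℤ} (h : univ.gcd c = 1) : Module.finrank ℝ (LinearMap.ker (L c)) + 1 = n := by
  obtain ⟨j, hj⟩ := ex_ne h
  have : L c ≠ 0 := fun e => by
    have := L_single c j 1
    rw [e] at this
    exact hj (by exact_mod_cast (by simpa using this.symm : (c j : ℝ) = 0))
  simpa using Module.Dual.finrank_ker_add_one_of_ne_zero this

theorem small {ι : Type} [Fintype ι] (a b : ι → ℝ) (p : ι → Prop) (h : ∀ k, p k → 0 < a k) :
    ∃ ε : ℝ, 0 < ε ∧ ∀ k, p k → ε * b k < a k := by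
  have : ∀ᶠ ε in nhdsWithin (0 : ℝ) (Set.Ioi 0), ∀ k, p k → ε * b k < a k := by
    refine nhdsWithin_le_nhds (Filter.eventually_all.2 fun k => ?_)
    by_cases e : p k
    · have : ContinuousAt (fun ε : ℝ => ε * b k) 0 := by fun_prop
      exact (this.eventually_lt continuousAt_const (by simpa using h k e)).mono fun _ a _ => a
    · exact .of_forall fun _ a => absurd a e
  obtain ⟨ε, h1, h2⟩ := (this.and self_mem_nhdsWithin).exists
  exact ⟨ε, h2, h1⟩

theorem vs_le (c : Fin n → ℤ) (F : Set (Fin n → ℝ)) (d : ℝ) (h : ∀ x ∈ F, L c x = d) :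
    vectorSpan ℝ F ≤ LinearMap.ker (L c) := by
  rw [vectorSpan_def, Submodule.span_le]
  rintro _ ⟨x, hx, y, hy, rfl⟩
  simp [h x hx, h y hy]

theorem normals_eq {ι : Type} [Fintype ι] [Nonempty ι] (r : ι → Fin n → ℤ) (β : ι → ℝ) (hr : ∀ k, univ.gcd (r k) = 1)
    (P : Set (Fin n → ℝ)) (hP : ∀ x, x ∈ P ↔ ∀ k, L (r k) x ≤ β k) (z) (hz : ∀ k, L (r k) z < β k)
    (hy : ∀ k, ∃ y, L (r k) y = β k ∧ ∀ l, l ≠ k → L (r l) y < β l) (u) (hu : u ∈ P) :
    normals P u = {c | ∃ k, L (r k) u = β k ∧ c = r k} := by
  ext c
  have nm : c ∈ normals P u ↔ univ.gcd c = 1 ∧ (∀ x ∈ P, L c x ≤ L c u) ∧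
      Module.finrank ℝ (vectorSpan ℝ {x ∈ P | L c x = L c u}) + 1 = n := by
    rw [show {x ∈ P | L c x = L c u} = {x ∈ P | ∑ j, c j * x j = ∑ j, c j * u j} by simp only [L_apply]]
    simp only [L_apply]; rfl
  rw [nm, Set.mem_setOf_eq]
  constructor
  · rintro ⟨h1, h2, h3⟩
    obtain ⟨k, hk⟩ : ∃ k, ∀ x ∈ {x ∈ P | L c x = L c u}, L (r k) x = β k := by
      by_contra! e
      choose x x1 x2 using e
      have c0 : (0 : ℝ) < Fintype.card ι := by exact_mod_cast Fintype.card_pos
      let y := (Fintype.card ι : ℝ)⁻¹ • ∑ k, x k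
      have y1 : ∀ k, L (r k) y < β k := fun k => by
        simp only [y, map_smul, map_sum, smul_eq_mul]
        rw [inv_mul_lt_iff₀ c0]
        have := Finset.sum_lt_sum (s := univ) (f := fun l => L (r k) (x l)) (g := fun _ => β k)
          (fun l _ => (hP _).1 (x1 l).1 k) ⟨k, mem_univ _, lt_of_le_of_ne ((hP _).1 (x1 k).1 k) (x2 k)⟩
        simpa using this
      have y2 : L c y = L c u := by
        simp only [y, map_smul, map_sum, smul_eq_mul]
        rw [Finset.sum_congr rfl fun l _ => (x1 l).2]
        simp [c0.ne']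
      obtain ⟨j, hj⟩ := ex_ne h1
      obtain ⟨ε, e1, e2⟩ := small (fun k => β k - L (r k) y) (fun k => L (r k) (Pi.single j (c j))) (fun _ => True)
        fun k _ => sub_pos.2 (y1 k)
      have := h2 (y + ε • Pi.single j (c j : ℝ)) ((hP _).2 fun k => by
        have := e2 k trivial
        simp only [map_add, map_smul, smul_eq_mul]; linarith)
      simp only [map_add, map_smul, smul_eq_mul, L_single, y2] at this
      have : (0 : ℝ) < ε * (c j * c j) := mul_pos e1 (mul_self_pos.2 (by exact_mod_cast hj))
      linarith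
    have e1 := Submodule.eq_of_le_of_finrank_eq (vs_le c {x ∈ P | L c x = L c u} _ fun x hx => hx.2)
      (by have := rk h1; omega)
    have e2 := vs_le _ _ _ hk
    rw [e1] at e2
    obtain ⟨j, hj⟩ := ex_ne h1
    have e3 : ∀ i, c j * r k i = r k j * c i := fun i => by
      have := e2 (x := Pi.single i (c j : ℝ) - Pi.single j (c i : ℝ)) (by simp [L_single]; ring)
      simp only [LinearMap.mem_ker, map_sub, L_single] at this
      exact_mod_cast (by linarith : (c j : ℝ) * r k i = r k j * c i)
    have e4 := congrArg univ.gcd (funext e3)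
    rw [Finset.gcd_mul_left, Finset.gcd_mul_left, hr k] at e4
    erw [h1] at e4
    simp only [mul_one, ← Int.abs_eq_normalize] at e4
    have ku := hk u ⟨hu, rfl⟩
    refine ⟨k, ku, ?_⟩
    rcases abs_eq_abs.1 e4 with e | e
    · exact funext fun i => (mul_left_cancel₀ hj (by rw [e3 i, e])).symm
    · have e5 : ∀ i, c i = -r k i := fun i => mul_left_cancel₀ hj (by rw [mul_neg, e3 i, e]; ring)
      have e6 : ∀ x, L c x = -L (r k) x := fun x => by simp [L_apply, e5]
      have := h2 z ((hP z).2 fun k => (hz k).le)
      have := hz k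
      rw [e6, e6] at *
      linarith
  · rintro ⟨k, h1, rfl⟩
    refine ⟨hr k, fun x hx => h1 ▸ (hP x).1 hx k, ?_⟩
    refine Eq.trans ?_ (rk (hr k))
    refine congrArg (fun W : Submodule ℝ (Fin n → ℝ) => Module.finrank ℝ W + 1) ?_
    refine le_antisymm (vs_le _ _ _ fun x hx => hx.2) fun v hv => ?_
    obtain ⟨y, y1, y2⟩ := hy k
    obtain ⟨ε, e1, e2⟩ := small (fun k => β k - L (r k) y) (fun k => L (r k) v) (· ≠ k) fun l h => sub_pos.2 (y2 l h)
    have hv' : L (r k) v = 0 := hv
    have m1 : y ∈ {x ∈ P | L (r k) x = L (r k) u} :=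
      ⟨(hP _).2 fun l => by by_cases e : l = k <;> [exact e ▸ y1.le; exact (y2 l e).le], y1.trans h1.symm⟩
    have m2 : y + ε • v ∈ {x ∈ P | L (r k) x = L (r k) u} := ⟨(hP _).2 fun l => by
      by_cases e : l = k
      · simp [e, hv', y1]
      · have := e2 l e
        simp only [map_add, map_smul, smul_eq_mul]; linarith, by simp [hv', y1, h1]⟩
    have := Submodule.smul_mem _ ε⁻¹ (vsub_mem_vectorSpan ℝ m2 m1)
    simpa [smul_smul, e1.ne'] using this

def rr : Option (Fin n × Bool) → Fin n → ℤ
  | none => fun _ => 1
  | some (i, b) => Pi.single i (if b then 1 else -1)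

theorem rr_none (x : Fin n → ℝ) : L (rr none) x = ∑ j, x j := by simp [L_apply, rr]
theorem rr_true (i) (x : Fin n → ℝ) : L (rr (some (i, true))) x = x i := by simp [L_apply, rr, Pi.single_apply]
theorem rr_false (i) (x : Fin n → ℝ) : L (rr (some (i, false))) x = -x i := by simp [L_apply, rr, Pi.single_apply]

theorem main (a : Fin n → ℕ) (s : ℕ) (h0 : ∀ i, 0 < a i) (h1 : ∀ i, a i < s) (h2 : s < ∑ i, a i) (hn : 2 ≤ n)
    (P : Set (Fin n → ℝ)) (hP : ∀ x, x ∈ P ↔ (∀ i, 0 ≤ x i) ∧ (∀ i, x i ≤ a i) ∧ ∑ i, x i ≤ s) :
    Unimod P ↔ ¬∃ S : Finset (Fin n), ∑ i ∈ S, a i = s := by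
  classical
  let β : Option (Fin n × Bool) → ℝ := fun k => k.elim s fun p => if p.2 then a p.1 else 0
  have n0 : (0 : ℝ) < n := by exact_mod_cast (by omega : 0 < n)
  have a0 : ∀ i, (1 : ℝ) ≤ a i := fun i => by exact_mod_cast h0 i
  have a1 : ∀ i, (a i : ℝ) + 1 ≤ s := fun i => by exact_mod_cast h1 i
  have i0 : Fin n := ⟨0, by omega⟩
  have s2 : (2 : ℝ) ≤ s := by have := a0 i0; have := a1 i0; linarith
  have e0 : (0 : ℝ) < 1 / (2 * n) := by positivity
  have e1 : 1 / (2 * n : ℝ) < 1 := by
    rw [div_lt_one (by positivity)]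
    have : (2 : ℝ) ≤ n := by exact_mod_cast hn
    linarith
  have e2 : n * (1 / (2 * n : ℝ)) = 1 / 2 := by field_simp
  have su : ∀ i (t : ℝ), ∑ j, Function.update (fun _ : Fin n => 1 / (2 * n : ℝ)) i t j ≤ t + 1 / 2 := fun i t => by
    rw [Finset.sum_update_of_mem (mem_univ _), ← e2]
    simp only [Finset.sum_const, nsmul_eq_mul]
    gcongr
    exact_mod_cast (Finset.card_le_univ _).trans (by simp)
  have N : ∀ u ∈ P, normals P u = {c | ∃ k, L (rr k) u = β k ∧ c = rr k} := by
    refine normals_eq rr β (fun k => ?_) P (fun x => ?_) (fun _ => 1 / (2 * n)) (fun k => ?_) fun k => ?_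
    · refine Int.eq_one_of_dvd_one (Int.nonneg_of_normalize_eq_self Finset.normalize_gcd) ?_
      rcases k with _ | ⟨i, _ | _⟩
      · exact Finset.gcd_dvd (f := rr none) (mem_univ i0)
      · simpa [rr] using Finset.gcd_dvd (f := rr (some (i, false))) (mem_univ i)
      · simpa [rr] using Finset.gcd_dvd (f := rr (some (i, true))) (mem_univ i)
    · simp [hP, Option.forall, rr_none, rr_true, rr_false, β, forall_and]; tauto
    · rcases k with _ | ⟨i, _ | _⟩
      · simp only [rr_none, β, Option.elim, Finset.sum_const, nsmul_eq_mul, card_univ, Fintype.card_fin]; linarith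
      · simpa [rr_false, β] using n0
      · have := a0 i
        simp only [rr_true, β, Option.elim, if_true]; linarith
    · rcases k with _ | ⟨i, _ | _⟩
      · have t1 : (s : ℝ) < ∑ i, (a i : ℝ) := by exact_mod_cast h2
        have t2 : (0 : ℝ) < ∑ i, (a i : ℝ) := by linarith
        refine ⟨fun i => s / (∑ i, (a i : ℝ)) * a i, ?_, ?_⟩
        · simp only [rr_none, β, Option.elim, ← Finset.mul_sum]; field_simp
        · rintro (_ | ⟨i, _ | _⟩) h
          · exact absurd rfl h
          · have := a0 i
            have : 0 < s / (∑ i, (a i : ℝ)) * a i := by positivity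
            simpa [rr_false, β] using this
          · have := a0 i
            simp only [rr_true, β, Option.elim, if_true]
            exact mul_lt_of_lt_one_left (by linarith) ((div_lt_one t2).2 t1)
      · refine ⟨Function.update (fun _ => 1 / (2 * n)) i 0, by simp [rr_false, β], ?_⟩
        rintro (_ | ⟨j, _ | _⟩) h
        · have := su i 0
          simp only [rr_none, β, Option.elim]; linarith
        · have : j ≠ i := by simpa using h
          simpa [rr_false, β, this] using n0
        · have := a0 j
          simp only [rr_true, β, Option.elim, if_true, Function.update_apply]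
          split <;> linarith
      · refine ⟨Function.update (fun _ => 1 / (2 * n)) i (a i), by simp [rr_true, β], ?_⟩
        rintro (_ | ⟨j, _ | _⟩) h
        · have := su i (a i)
          have := a1 i
          simp only [rr_none, β, Option.elim]; linarith
        · have := a0 i
          simp only [rr_false, β, Option.elim, Function.update_apply, Bool.false_eq_true, if_false]
          split <;> linarith
        · have : j ≠ i := by simpa using h
          have := a0 j
          simp only [rr_true, β, Option.elim, if_true, Function.update_of_ne ‹j ≠ i›]; linarith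
  have inj : Function.Injective (rr (n := n)) := by
    have : Nontrivial (Fin n) := Fin.nontrivial_iff_two_le.2 hn
    rintro (_ | ⟨i, b⟩) (_ | ⟨j, c⟩) e
    · rfl
    · obtain ⟨k, hk⟩ := exists_ne j
      simpa [rr, hk] using congrFun e k
    · obtain ⟨k, hk⟩ := exists_ne i
      simpa [rr, hk] using congrFun e k
    · have := congrFun e i
      by_cases h : i = j <;> cases b <;> cases c <;> simp_all [rr]
  constructor
  · rintro H ⟨S, hS⟩
    let u : Fin n → ℝ := fun i => if i ∈ S then a i else 0
    have us : ∑ i, u i = s := by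
      simp only [u, Finset.sum_ite_mem, univ_inter]; exact_mod_cast hS
    have uP : u ∈ P := (hP u).2 ⟨fun i => by simp only [u]; split <;> simp,
      fun i => by simp only [u]; split <;> simp, us.le⟩
    have ex : u ∈ P.extremePoints ℝ := by
      refine mem_extremePoints_iff_left.2 ⟨uP, fun x hx y hy ⟨p, q, p0, q0, pq, e⟩ => ?_⟩
      funext i
      have x1 := ((hP x).1 hx).1 i
      have x2 := ((hP x).1 hx).2.1 i
      have y1 := ((hP y).1 hy).1 i
      have y2 := ((hP y).1 hy).2.1 i
      have e := congrFun e i
      simp only [Pi.add_apply, Pi.smul_apply, smul_eq_mul, u] at e ⊢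
      obtain rfl : q = 1 - p := by linarith
      split_ifs at e ⊢ <;> nlinarith
    obtain ⟨M, m1, m2, -⟩ := H u ex
    · have : ∀ k : Option (Fin n), ∃ i, M i = rr (k.map fun i => (i, decide (i ∈ S))) := fun k => by
        change _ ∈ Set.range M
        rw [m2, N u uP]
        refine ⟨_, ?_, rfl⟩
        rcases k with _ | i
        · simpa [rr_none, β] using us
        · by_cases h : i ∈ S <;> simp [h, rr_true, rr_false, β, u]
      choose f hf using this
      have := Fintype.card_le_of_injective f fun k l e => by
        have := inj ((hf k).symm.trans (e ▸ hf l))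
        rcases k with _ | k <;> rcases l with _ | l <;> simp_all
      simp at this
  · intro H u hu
    obtain ⟨uP, hu⟩ := mem_extremePoints_iff_left.1 hu
    obtain ⟨u0, u1, u2⟩ := (hP u).1 uP
    have mv : ∀ v : Fin n → ℝ, (∀ i, u i = 0 ∨ u i = a i → v i = 0) → (∑ i, u i = s → ∑ i, v i = 0) → v = 0 :=
      fun v v1 v2 => by
        obtain ⟨ε, e1, e2⟩ := small (fun k => β k - L (rr k) u) (fun k => |L (rr k) v|) (fun k => L (rr k) u < β k)
          fun k h => sub_pos.2 h
        have key : ∀ t : ℝ, |t| = ε → u + t • v ∈ P := fun t ht => by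
          have : ∀ k, L (rr k) u ≤ β k → (L (rr k) u = β k → L (rr k) v = 0) → L (rr k) (u + t • v) ≤ β k :=
            fun k a b => by
              simp only [map_add, map_smul, smul_eq_mul]
              rcases a.lt_or_eq with a | a
              · have := e2 k a
                have := le_abs_self (t * L (rr k) v)
                rw [abs_mul, ht] at this
                linarith
              · simp [b a, a]
          refine (hP _).2 ⟨fun i => ?_, fun i => ?_, ?_⟩
          · simpa [rr_false, β, -neg_add_rev] using this (some (i, false)) (by simpa [rr_false, β] using u0 i)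
              (by simpa [rr_false, β] using fun h => v1 i (.inl h))
          · simpa [rr_true, β] using this (some (i, true)) (by simpa [rr_true, β] using u1 i)
              (by simpa [rr_true, β] using fun h => v1 i (.inr h))
          · simpa [rr_none, β] using this none (by simpa [rr_none, β] using u2) (by simpa [rr_none, β] using v2)
        have := hu _ (key ε (abs_of_pos e1)) _ (key (-ε) (by rw [abs_neg, abs_of_pos e1]))
          ⟨1 / 2, 1 / 2, by norm_num, by norm_num, by norm_num, by module⟩
        simpa [e1.ne'] using this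
    let b : Fin n → Bool := fun i => decide (u i = a i)
    have fin : ∀ κ : Fin n → Option (Fin n × Bool), Function.Injective κ → (∀ k, L (rr k) u = β k ↔ k ∈ Set.range κ) →
        Function.Surjective (Matrix.mulVec (Matrix.of fun i => rr (κ i))) → ∃ M : Matrix (Fin n) (Fin n) ℤ,
        Function.Injective M ∧ Set.range M = normals P u ∧ |M.det| = 1 := fun κ k1 k2 k3 => by
      refine ⟨Matrix.of fun i => rr (κ i), inj.comp k1, ?_, ?_⟩
      · rw [N u uP]
        ext c
        simp only [k2, Set.mem_range, Set.mem_setOf_eq]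
        exact ⟨by rintro ⟨i, rfl⟩; exact ⟨_, ⟨i, rfl⟩, rfl⟩, by rintro ⟨_, ⟨i, rfl⟩, rfl⟩; exact ⟨i, rfl⟩⟩
      · exact Int.isUnit_iff_abs_eq.1 ((Matrix.isUnit_iff_isUnit_det _).1 (Matrix.mulVec_surjective_iff_isUnit.1 k3))
    have tt : ∀ i c, L (rr (some (i, c))) u = β (some (i, c)) ↔ (u i = 0 ∨ u i = a i) ∧ b i = c := fun i c => by
      have := a0 i
      cases c
      · simp only [rr_false, β, Option.elim, b, Bool.false_eq_true, if_false, neg_eq_zero, decide_eq_false_iff_not]
        exact ⟨fun h => ⟨.inl h, by linarith⟩, fun h => h.1.resolve_right h.2⟩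
      · simp only [rr_true, β, Option.elim, b, if_true, decide_eq_true_eq]
        exact ⟨fun h => ⟨.inr h, h⟩, fun h => h.2⟩
    have dg : ∀ i (y : Fin n → ℤ), rr (some (i, b i)) ⬝ᵥ y = if b i then y i else -y i := fun i y => by
      cases b i <;> simp [rr]
    by_cases hJ : ∀ i, u i = 0 ∨ u i = a i
    · refine fin (fun i => some (i, b i)) (fun i j e => by simpa using congrArg (Option.map Prod.fst) e) ?_ fun y => ?_
      · rintro (_ | ⟨i, c⟩)
        · simp only [rr_none, β, Option.elim, Set.mem_range, reduceCtorEq, exists_false, iff_false]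
          refine fun e => H ⟨univ.filter fun i => u i = a i, ?_⟩
          have : ∑ i ∈ univ.filter fun i => u i = a i, (a i : ℝ) = s := by
            rw [← e, Finset.sum_filter]
            refine Finset.sum_congr rfl fun i _ => ?_
            split
            · simp [*]
            · exact ((hJ i).resolve_right ‹_›).symm
          exact_mod_cast this
        · simp [tt, hJ i]
      · refine ⟨fun i => if b i then y i else -y i, funext fun i => ?_⟩
        simp only [Matrix.mulVec, Matrix.of_apply]
        erw [dg]
        cases b i <;> simp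
    · obtain ⟨j, hj⟩ := not_forall.1 hJ
      have j1 : ∑ i, u i = s := by
        by_contra e
        have := mv (Pi.single j 1) (fun i h => Pi.single_eq_of_ne (by rintro rfl; exact hj h) _) fun h => absurd h e
        simpa using congrFun this j
      have j2 : ∀ i, i ≠ j → u i = 0 ∨ u i = a i := fun i h => by
        by_contra e
        have := mv (Pi.single j 1 - Pi.single i 1) (fun k hk => by
          have k1 : k ≠ j := by rintro rfl; exact hj hk
          have k2 : k ≠ i := by rintro rfl; exact e hk
          simp [k1, k2]) fun _ => by simp [Finset.sum_sub_distrib]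
        simpa [h.symm] using congrFun this j
      refine fin (fun i => if i = j then none else some (i, b i)) (fun i k e => ?_) ?_ fun y => ?_
      · by_cases a : i = j <;> by_cases b : k = j
        · rw [a, b]
        · simp [a, b] at e
        · simp [a, b] at e
        · simp only [a, b, if_false, Option.some.injEq, Prod.mk.injEq] at e; exact e.1
      · rintro (_ | ⟨i, c⟩)
        · exact iff_of_true (by simpa [rr_none, β] using j1) ⟨j, by simp⟩
        · rw [tt]
          constructor
          · rintro ⟨h, rfl⟩
            exact ⟨i, if_neg (by rintro rfl; exact hj h)⟩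
          · rintro ⟨k, hk⟩
            by_cases e : k = j
            · simp [e] at hk
            · simp only [e, if_false, Option.some.injEq, Prod.mk.injEq] at hk
              obtain ⟨rfl, rfl⟩ := hk
              exact ⟨j2 k e, rfl⟩
      · let w : Fin n → ℤ := fun i => if b i then y i else -y i
        refine ⟨Function.update w j (y j - ∑ i ∈ univ \ {j}, w i), funext fun i => ?_⟩
        simp only [Matrix.mulVec, Matrix.of_apply]
        by_cases e : i = j
        · subst e
          change rr (if i = i then none else _) ⬝ᵥ _ = _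
          simp [rr, dotProduct, Finset.sum_update_of_mem]
        · change rr (if i = j then none else _) ⬝ᵥ _ = _
          rw [if_neg e, dg, Function.update_of_ne e]
          simp only [w]
          cases b i <;> simp

def bb (a : List ℕ × ℕ) : ℕ := a.1.sum + a.1.length * (a.2 + 1) + a.2 + 1
def it (a : List ℕ × ℕ) (i : ℕ) : ℕ :=
  if i < a.1.length then (if a.1.getD i 0 = 0 then a.2 + 1 else a.1.getD i 0) else bb a

def sys (a : List ℕ × ℕ) : Sys :=
  (List.replicate (a.1.length + 3) (), ((List.range (a.1.length + 3)).map fun _ => true, a.2 + 2 * bb a, 1) ::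
    (List.range (a.1.length + 3)).map fun i => ((List.range (a.1.length + 3)).map fun j => decide (j = i), it a i, 1))

theorem it_pos (a i) : 0 < it a i := by unfold it bb; split_ifs <;> omega

theorem sys_ok (a) : (sys a).ok := by
  simp [Sys.ok, sys, it_pos, bb]

theorem low (a : List ℕ × ℕ) : ∑ i ∈ range a.1.length, it a i + a.2 < bb a := by
  have : ∑ i ∈ range a.1.length, it a i ≤ ∑ i ∈ range a.1.length, (a.1.getD i 0 + (a.2 + 1)) :=
    Finset.sum_le_sum fun i hi => by simp only [it, mem_range.1 hi, if_true]; split <;> omega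
  rw [Finset.sum_add_distrib, sum_getD] at this
  simp [bb] at this ⊢; omega

theorem ss_iff (a : List ℕ × ℕ) :
    SubsetSum a ↔ ∃ S ⊆ range (a.1.length + 3), ∑ i ∈ S, it a i = a.2 + 2 * bb a := by
  constructor
  · rintro ⟨S, h1, h2⟩
    have h3 : ∀ i ∈ S, i < a.1.length := fun i hi => mem_range.1 (h1 hi)
    refine ⟨insert a.1.length (insert (a.1.length + 1) (S.filter fun i => a.1.getD i 0 ≠ 0)), fun i hi => ?_, ?_⟩
    · simp only [mem_insert, mem_filter, mem_range] at hi ⊢
      rcases hi with h | h | h
      · omega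
      · omega
      · have := h3 i h.1; omega
    · rw [Finset.sum_insert (by simp only [mem_insert, mem_filter]; rintro (h | h) <;> [omega; exact (h3 _ h.1).false]),
        Finset.sum_insert (by simp only [mem_filter]; intro h; have := h3 _ h.1; omega),
        Finset.sum_congr rfl (g := fun i => a.1.getD i 0) fun i hi => by
          simp only [it, h3 i (mem_filter.1 hi).1, (mem_filter.1 hi).2, if_true, if_false],
        Finset.sum_filter_ne_zero, h2]
      simp [it]; omega
  · rintro ⟨S, h1, h2⟩
    rw [← Finset.sum_filter_add_sum_filter_not S (· < a.1.length), Finset.sum_congr rfl (s₁ := S.filter fun i => ¬i < a.1.length)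
      (f := it a) (g := fun _ => bb a) fun i hi => by simp only [it, (mem_filter.1 hi).2, if_false]] at h2
    have h3 : S.filter (· < a.1.length) ⊆ range a.1.length := fun i hi => mem_range.2 (mem_filter.1 hi).2
    have h4 := (Finset.sum_le_sum_of_subset (f := it a) h3)
    have h5 := low a
    simp only [Finset.sum_const, smul_eq_mul] at h2
    have h6 : ∑ i ∈ S.filter (· < a.1.length), it a i = a.2 := by
      generalize (S.filter fun i => ¬i < a.1.length).card = k at h2
      rcases k with _ | _ | _ | k <;> simp [add_mul] at h2 <;> omega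
    refine ⟨_, h3, h6 ▸ Finset.sum_congr rfl fun i hi => ?_⟩
    have := Finset.single_le_sum (f := it a) (fun _ _ => Nat.zero_le _) hi
    simp only [it, (mem_filter.1 hi).2, if_true] at this ⊢
    rw [if_neg]
    intro e
    simp only [it] at h6
    rw [if_pos e] at this
    omega

theorem hard : NPHard fun a : {a : Sys // a.ok} => ¬Unimod a.1.P := by
  refine ssum_hard.red ⟨fun a => ⟨sys a, sys_ok a⟩, PT.subtype (by unfold sys it bb; fun_prop) _, fun a => ?_⟩
  have hn : (sys a).1.length = a.1.length + 3 := by simp [sys]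
  have h5 := low a
  change _ ↔ ¬Unimod (sys a).P
  rw [main (fun i => it a i) (a.2 + 2 * bb a) (fun i => it_pos a i) ?_ ?_ (by omega) _ ?_, not_not, ss_iff]
  · constructor
    · rintro ⟨S, h1, h2⟩
      refine ⟨univ.filter fun i => i.1 ∈ S, h2 ▸ Finset.sum_bij (fun i _ => i.1) (by simp) (fun _ _ _ _ => Fin.ext)
        (fun i hi => ⟨⟨i, hn ▸ mem_range.1 (h1 hi)⟩, by simpa using hi, rfl⟩) fun _ _ => rfl⟩
    · rintro ⟨S, h⟩
      refine ⟨S.map Fin.valEmbedding, fun i hi => ?_, by simpa using h⟩
      obtain ⟨i, -, rfl⟩ := mem_map.1 hi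
      exact mem_range.2 (hn ▸ i.2)
  · intro i
    by_cases h : i.1 < a.1.length
    · have := Finset.single_le_sum (f := it a) (fun _ _ => Nat.zero_le _) (mem_range.2 h); omega
    · simp only [it, h, if_false]; omega
  · rw [Fin.sum_univ_eq_sum_range (it a), hn]
    simp [Finset.sum_range_succ, it]
    omega
  · intro x
    have e1 : ∀ j : Fin (sys a).1.length, ((List.range (a.1.length + 3)).map fun _ => true).getD j false = true :=
      fun j => by have := j.2.trans_eq hn; simp [List.getD_eq_getElem?_getD, this]
    have e2 : ∀ i j : Fin (sys a).1.length,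
        ((List.range (a.1.length + 3)).map fun j => decide (j = i.1)).getD j false = decide (j = i) :=
      fun i j => by have := j.2.trans_eq hn; simp [List.getD_eq_getElem?_getD, this, Fin.ext_iff]
    refine and_congr_right fun _ => ?_
    change (∀ r ∈ _ :: _, _) ↔ _
    rw [List.forall_mem_cons, List.forall_mem_map, and_comm]
    refine and_congr ⟨fun h i => ?_, fun h i hi => ?_⟩ (by simp only [e1]; simp)
    · simpa only [e2, decide_eq_true_eq, Finset.sum_ite_eq', mem_univ, if_true, Nat.cast_one, div_one] using
        h i (List.mem_range.2 (hn ▸ i.2))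
    · have := e2 ⟨i, hn ▸ List.mem_range.1 hi⟩
      simpa only [this, decide_eq_true_eq, Finset.sum_ite_eq', mem_univ, if_true, Nat.cast_one, div_one] using
        h ⟨i, hn ▸ List.mem_range.1 hi⟩

end Pool.Agent.H.MP_148663_lc
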