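import Pool.Agent.Lib.lead.CXDefs

namespace Pool.Agent.H.MP_148663_lc

open Pool.Agent.Lib.CX

/-- the number of columns in unary, and the rows of the system: a 0-1 row with numerator and denominator of the
right-hand side -/
abbrev Sys := List Unit × List (List Bool × ℕ × ℕ)

/-- rows have the right length and the right-hand sides are positive rationals -/
def Sys.ok (a : Sys) : Prop := ∀ r ∈ a.2, r.1.length = a.1.length ∧ 0 < r.2.1 ∧ 0 < r.2.2

/-- the polyhedron of the system -/
def Sys.P (a : Sys) : Set (Fin a.1.length → ℝ) :=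
  {x | (∀ j, 0 ≤ x j) ∧ ∀ r ∈ a.2, ∑ j : Fin a.1.length, (if r.1.getD j false then x j else 0) ≤ (r.2.1 : ℝ) / r.2.2}

/-- the primitive integer outer normals of the facets of `P` that contain `u` -/
def normals {n : ℕ} (P : Set (Fin n → ℝ)) (u : Fin n → ℝ) : Set (Fin n → ℤ) :=
  {c | Finset.univ.gcd c = 1 ∧ (∀ x ∈ P, ∑ j, c j * x j ≤ ∑ j, c j * u j) ∧
    Module.finrank ℝ (vectorSpan ℝ {x ∈ P | ∑ j, c j * x j = ∑ j, c j * u j}) + 1 = n}

/-- at every vertex the facet normals form a square matrix of determinant 1 or -1 -/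
def Unimod {n : ℕ} (P : Set (Fin n → ℝ)) : Prop :=
  ∀ u ∈ P.extremePoints ℝ, ∃ M : Matrix (Fin n) (Fin n) ℤ,
    Function.Injective M ∧ Set.range M = normals P u ∧ |M.det| = 1

end Pool.Agent.H.MP_148663_lc
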